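import Pool.Agent.Lib.P1c98a8.Static

/-!
# Hoelder continuous vorticity direction below 1/2 gives extra integrability

We answer the question Q1 of MP_1c98a8_an in the affirmative.

The definitions used in the statement are in `Pool/Agent/Lib/P1c98a8/Defs.lean`.

Idea of the proof.  Fix a time `t` and let `w` be the vorticity.  Near a given point the field `w`
is, up to a relative error `c r^β` at distance `r`, parallel to a fixed direction `e`.  Since
`div w = 0`, sliding a smooth test kernel of size `ρ` along `e` over the length `ρ^{1/(1+β)}`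
shows that the averages of `w` at scale `ρ` gain a positive power of `ρ` over the trivial
Cauchy-Schwarz bound.  Hence the mollification of `u` at scale `ρ` is bounded by
`C ρ^{-1/(2(1+β))} ‖u‖_{H¹}`, and an elementary level set argument (improved Sobolev inequality)
gives `‖u(t)‖_{L^q} ≤ C ‖u(t)‖_{H¹}` for all `2 < q < 6 + 4β`.
-/

open MeasureTheory Set
open Pool.Agent.Lib.P1c98a8

namespace Pool.Agent.Results.MP_1c98a8_an.HolderDirectionGain

/-- **Answer to Q1 (affirmative).**  Let `u` be a Leray-Hopf weak solution of the 3D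
Navier-Stokes equations on `(0,T)` with divergence free initial velocity in `H¹`, and suppose that
the vorticity direction is `β`-Hoelder continuous for some `β > 0` (in particular for some
`β ∈ (0,1/2)`): there is a constant `c` with `sin θ(x,y,t) ≤ c |x-y|^β` at almost every time, for
almost all points `x, y` at which the vorticity does not vanish.  Then
`u ∈ L²(0,T;L^q(ℝ³))` for every `2 < q < 6 + 4β`.  In particular there are exponents `s, q ≥ 1` with
`λ(s,q) = 2/s + 3/q < 3/2` and `u ∈ L^s(0,T;L^q(ℝ³))`. -/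
theorem result (β : ℝ) (hβ : 0 < β) (T : ℝ) (u₀ : E3 → E3)
    (D₀ : E3 → Fin 3 → Fin 3 → ℝ) (_hu₀ : IsH1Solenoidal u₀ D₀)
    (u : ℝ → E3 → E3) (Du : ℝ → E3 → Fin 3 → Fin 3 → ℝ) (hu : IsLerayHopf T u₀ u Du)
    (c : ℝ)
    (hdir : ∀ᵐ t ∂(volume.restrict (Ioo 0 T)), HolderDirection β c (vort (Du t))) :
    (∀ q : ℝ, 2 < q → q < 6 + 4 * β → InLsLq T 2 q u) ∧
      ∃ s q : ℝ, 1 ≤ s ∧ 1 ≤ q ∧ 2 / s + 3 / q < 3 / 2 ∧ InLsLq T s q u := by
  have main : ∀ q : ℝ, 2 < q → q < 6 + 4 * β → InLsLq T 2 q u := by
    intro q hq hq'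
    obtain ⟨C, hC, hbound⟩ := static_bound (c := |c|) hβ (abs_nonneg c) hq hq'
    obtain ⟨M, hM⟩ := hu.bounded
    unfold InLsLq
    set g : ℝ → ENNReal := fun t => ∫⁻ x, ENNReal.ofReal (∑ i, ∑ j, Du t x i j ^ 2) with hg
    have h1 : ∀ᵐ t ∂(volume.restrict (Ioo 0 T)),
        (eLpNorm (u t) (ENNReal.ofReal q) volume) ^ (2 : ℝ) ≤ C * (ENNReal.ofReal M + g t) := by
      filter_upwards [hdir, hu.h1, ae_restrict_mem measurableSet_Ioo] with t hd h1 ht
      have hd' : HolderDirection β |c| (vort (Du t)) := by
        unfold HolderDirection at hd ⊢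
        filter_upwards [hd] with x hx
        filter_upwards [hx] with y hy
        intro h2 h3
        refine (hy h2 h3).trans ?_
        exact mul_le_mul_of_nonneg_right (le_abs_self c) (by positivity)
      have h4 := hbound (u t) (Du t) h1 hd'
      have h5 : (eLpNorm (u t) (ENNReal.ofReal q) volume) ^ (2 : ℝ)
          = (eLpNorm (u t) (ENNReal.ofReal q) volume) ^ 2 := by
        rw [← ENNReal.rpow_natCast]; norm_num
      rw [h5]
      refine h4.trans ?_
      unfold E2
      gcongr
      have h6 : ∀ x, ‖u t x‖ₑ ^ 2 = ENNReal.ofReal (‖u t x‖ ^ 2) := by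
        intro x
        rw [ENNReal.ofReal_pow (norm_nonneg _), ofReal_norm]
      simp_rw [h6]
      rw [← ofReal_integral_eq_lintegral_ofReal]
      · exact ENNReal.ofReal_le_ofReal (hM t ⟨ht.1.le, ht.2⟩)
      · exact h1.memLp.integrable_norm_pow (by norm_num)
      · exact Filter.Eventually.of_forall fun x => by positivity
    calc ∫⁻ t in Ioo 0 T, (eLpNorm (u t) (ENNReal.ofReal q) volume) ^ (2 : ℝ)
        ≤ ∫⁻ t in Ioo 0 T, C * (ENNReal.ofReal M + g t) := lintegral_mono_ae h1
      _ = C * (ENNReal.ofReal M * volume (Ioo 0 T) + ∫⁻ t in Ioo 0 T, g t) := by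
          rw [lintegral_const_mul' _ _ hC.ne, lintegral_add_left measurable_const,
            lintegral_const, Measure.restrict_apply MeasurableSet.univ, univ_inter]
      _ < ⊤ := by
          apply ENNReal.mul_lt_top hC
          refine ENNReal.add_lt_top.2 ⟨?_, hu.dissipation⟩
          apply ENNReal.mul_lt_top ENNReal.ofReal_lt_top
          simp
  refine ⟨main, 2, 6 + 2 * β, by norm_num, by linarith, ?_, main _ (by linarith) (by linarith)⟩
  have h1 : 3 / (6 + 2 * β) < 1 / 2 := by
    rw [div_lt_div_iff₀ (by linarith) (by norm_num)]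
    linarith
  linarith

end Pool.Agent.Results.MP_1c98a8_an.HolderDirectionGain
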